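import Mathlib

set_option autoImplicit false

namespace Pool.Agent.Q168.EJ

open Polynomial Finset

/-- `c k i` is the coefficient of `z^k` in `(1 - z)^(2i) (1 + z)^(2(k-i))`. -/
noncomputable def c (k i : ℕ) : ℝ :=
  ((1 - X : ℝ[X]) ^ (2 * i) * (1 + X) ^ (2 * (k - i))).coeff k

theorem c_rec (k i : ℕ) (hi : i < k) :
    (2 * i + 1 : ℝ) * c k i + (2 * k - 2 * i - 1 : ℝ) * c k (i + 1) = 0 := by
  obtain ⟨j, rfl⟩ : ∃ j, k = i + 1 + j := ⟨k - i - 1, by omega⟩
  set E : ℝ[X] := (1 - X) ^ (2 * i) * (1 + X) ^ (2 * j) with hE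
  set G : ℝ[X] := (1 - X) ^ (2 * i + 1) * (1 + X) ^ (2 * j + 1) with hG
  set K : ℝ := ((i + 1 + j : ℕ) : ℝ) with hK
  have h1 : (1 - X : ℝ[X]) ^ (2 * i) * (1 + X) ^ (2 * (i + 1 + j - i)) = E * (1 + X) ^ 2 := by
    rw [show 2 * (i + 1 + j - i) = 2 * j + 2 by omega, hE, pow_add]; ring
  have h2 : (1 - X : ℝ[X]) ^ (2 * (i + 1)) * (1 + X) ^ (2 * (i + 1 + j - (i + 1)))
      = E * (1 - X) ^ 2 := by
    rw [show 2 * (i + 1 + j - (i + 1)) = 2 * j by omega, hE, mul_add, pow_add]; ring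
  have hG' : derivative G = E * (C (2 * (j : ℝ) + 1) * (1 - X) - C (2 * (i : ℝ) + 1) * (1 + X)) := by
    rw [hG, derivative_mul, derivative_pow, derivative_pow]
    simp only [derivative_sub, derivative_add, derivative_one, derivative_X, zero_sub, zero_add]
    rw [hE]
    push_cast
    simp only [map_add, map_mul, map_natCast, map_ofNat, map_one]
    ring
  have hGE : G = E * ((1 - X) * (1 + X)) := by rw [hG, hE]; ring
  have key : C (2 * (i : ℝ) + 1) * (E * (1 + X) ^ 2) + C (2 * (j : ℝ) + 1) * (E * (1 - X) ^ 2)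
      = C (2 * K) * G - C 2 * (X * derivative G) := by
    rw [hG', hGE, hK]
    push_cast
    simp only [map_add, map_mul, map_natCast, map_ofNat, map_one]
    ring
  have hcoef := congrArg (fun p : ℝ[X] => p.coeff (i + 1 + j)) key
  simp only [coeff_add, coeff_sub, coeff_C_mul] at hcoef
  have h3 : (X * derivative G).coeff (i + 1 + j) = G.coeff (i + 1 + j) * K := by
    rw [show i + 1 + j = (i + j) + 1 by omega, coeff_X_mul, coeff_derivative, hK]
    push_cast; ring
  rw [h3] at hcoef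
  unfold c
  rw [h1, h2]
  have h4 : (2 * ((i + 1 + j : ℕ) : ℝ) - 2 * i - 1) = 2 * j + 1 := by push_cast; ring
  rw [h4]
  linarith

theorem c_zero (k : ℕ) : c k 0 = Nat.choose (2 * k) k := by
  unfold c
  simp only [mul_zero, pow_zero, one_mul, Nat.sub_zero]
  rw [coeff_one_add_X_pow]

theorem c_reflect (k i : ℕ) (hi : i ≤ k) : c k (k - i) = (-1) ^ k * c k i := by
  unfold c
  have h : ((1 - X : ℝ[X]) ^ (2 * (k - i)) * (1 + X) ^ (2 * (k - (k - i))))
      = ((1 - X : ℝ[X]) ^ (2 * i) * (1 + X) ^ (2 * (k - i))).comp (-X) := by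
    rw [mul_comp, pow_comp, pow_comp, sub_comp, add_comp, one_comp, X_comp,
      show k - (k - i) = i by omega]
    ring
  have h2 : (-X : ℝ[X]) = C (-1) * X := by simp
  rw [h, h2, comp_C_mul_X_coeff, mul_comm]

theorem c_abs_le (k i : ℕ) (h2 : 2 ≤ i) (hi : 2 * i ≤ k) : |c k i| ≤ |c k 2| := by
  induction i, h2 using Nat.le_induction with
  | base => exact le_rfl
  | succ i h2 ih =>
    refine le_trans ?_ (ih (by omega))
    have hr := c_rec k i (by omega)
    have h1 : (2 * k - 2 * i - 1 : ℝ) * c k (i + 1) = -((2 * i + 1 : ℝ) * c k i) := by linarith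
    have h2 := congrArg abs h1
    rw [abs_neg, abs_mul, abs_mul] at h2
    have hik : (2 * ((i : ℝ) + 1)) ≤ k := by exact_mod_cast hi
    have hi0 : (0 : ℝ) ≤ i := Nat.cast_nonneg i
    rw [abs_of_pos (show (0 : ℝ) < 2 * k - 2 * i - 1 by linarith),
      abs_of_pos (show (0 : ℝ) < 2 * i + 1 by linarith)] at h2
    by_contra hcon
    push Not at hcon
    have h3 : (2 * i + 1 : ℝ) * |c k i| ≤ (2 * k - 2 * i - 1 : ℝ) * |c k i| := by
      apply mul_le_mul_of_nonneg_right _ (abs_nonneg _)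
      linarith
    have h4 : (2 * k - 2 * i - 1 : ℝ) * |c k i| < (2 * k - 2 * i - 1 : ℝ) * |c k (i + 1)| := by
      apply mul_lt_mul_of_pos_left hcon
      linarith
    linarith

/-- The exceptional value is not a common-neighbour value. -/
theorem value_ne (k : ℕ) (hk : 5 ≤ k) (i : ℕ) (hi1 : 1 ≤ i) (hi2 : i + 1 ≤ k) :
    (2 * c k 2 - c k 1 + c k 3) / 2 ≠ c k i := by
  have hkR : (5 : ℝ) ≤ k := by exact_mod_cast hk
  have e0 := c_rec k 0 (by omega)
  have e1 := c_rec k 1 (by omega)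
  have e2 := c_rec k 2 (by omega)
  norm_num at e0 e1 e2
  rw [c_zero] at e0
  set Cb : ℝ := (Nat.choose (2 * k) k : ℝ) with hCb
  have hCpos : 0 < Cb := by
    rw [hCb]; exact_mod_cast Nat.choose_pos (by omega)
  obtain ⟨q, hq⟩ : ∃ q : ℝ, c k 3 = -15 * q := ⟨- c k 3 / 15, by ring⟩
  set m : ℝ := 2 * k - 1 with hm
  have hm9 : 9 ≤ m := by linarith
  have f2 : c k 2 = 3 * (m - 4) * q := by
    rw [hq] at e2; linarith
  have f1 : c k 1 = -((m - 2) * (m - 4) * q) := by
    rw [f2] at e1; linarith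
  have f0 : Cb = m * (m - 2) * (m - 4) * q := by
    rw [f1] at e0; linarith
  have hqpos : 0 < q := by
    rw [f0] at hCpos
    exact (pos_iff_pos_of_mul_pos hCpos).1 (by
      apply mul_pos (mul_pos _ _) _ <;> linarith)
  have hv : (2 * c k 2 - c k 1 + c k 3) / 2 = (6 * (m - 4) + (m - 2) * (m - 4) - 15) * q / 2 := by
    rw [f2, f1, hq]; ring
  have hv2 : |c k 2| < (2 * c k 2 - c k 1 + c k 3) / 2 := by
    rw [hv, f2, abs_of_pos (by apply mul_pos _ hqpos; linarith)]
    have : 0 < ((m - 2) * (m - 4) - 15) * q := by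
      apply mul_pos _ hqpos
      nlinarith
    linarith
  have hv0 : 0 < (2 * c k 2 - c k 1 + c k 3) / 2 := lt_of_le_of_lt (abs_nonneg _) hv2
  have hone : (2 * c k 2 - c k 1 + c k 3) / 2 ≠ c k 1 := by
    intro h
    rw [h, f1] at hv0
    have : 0 < (m - 2) * (m - 4) * q := by
      apply mul_pos (mul_pos _ _) hqpos <;> linarith
    linarith
  have hnone : (2 * c k 2 - c k 1 + c k 3) / 2 ≠ - c k 1 := by
    intro h
    rw [hv, f1, neg_neg] at h
    have : q * (m ^ 2 - 12 * m + 47) = 0 := by linarith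
    rcases mul_eq_zero.1 this with h' | h'
    · linarith
    · nlinarith [sq_nonneg (m - 6)]
  rcases Nat.lt_or_ge i 2 with h | h
  · have : i = 1 := by omega
    subst this; exact hone
  · rcases Nat.lt_or_ge (i + 2) (k + 1) with h' | h'
    · -- 2 ≤ i ≤ k - 2
      intro heq
      have habs : |c k i| ≤ |c k 2| := by
        rcases Nat.le_total (2 * i) k with h3 | h3
        · exact c_abs_le k i h h3
        · have hr := c_reflect k (k - i) (by omega)
          rw [show k - (k - i) = i by omega] at hr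
          rw [hr, abs_mul, abs_pow, abs_neg, abs_one, one_pow, one_mul]
          exact c_abs_le k (k - i) (by omega) (by omega)
      rw [← heq] at habs
      have := le_abs_self ((2 * c k 2 - c k 1 + c k 3) / 2)
      linarith
    · have hi : i = k - 1 := by omega
      have hr := c_reflect k 1 (by omega)
      rw [hi, hr]
      rcases neg_one_pow_eq_or ℝ k with h3 | h3
      · rw [h3, one_mul]; exact hone
      · rw [h3, neg_one_mul]; exact hnone

theorem value_ne' (k : ℕ) (hk : 5 ≤ k) :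
    (2 * c k 2 - c k 1 + c k 3) / 2 ≠ (-1) ^ k * ((Nat.choose (2 * k) k : ℝ) - 8) := by
  have hkR : (5 : ℝ) ≤ k := by exact_mod_cast hk
  have e0 := c_rec k 0 (by omega)
  have e1 := c_rec k 1 (by omega)
  have e2 := c_rec k 2 (by omega)
  norm_num at e0 e1 e2
  rw [c_zero] at e0
  have hC252 : (252 : ℝ) ≤ (Nat.choose (2 * k) k : ℝ) := by
    have h1 : Nat.choose 10 5 ≤ Nat.choose (2 * k) 5 := Nat.choose_le_choose 5 (by omega)
    have h2 : Nat.choose (2 * k) 5 ≤ Nat.choose (2 * k) k := by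
      have := Nat.choose_le_centralBinom 5 k
      rwa [Nat.centralBinom] at this
    have h3 : Nat.choose 10 5 = 252 := by decide
    rw [h3] at h1
    exact_mod_cast h1.trans h2
  set Cb : ℝ := (Nat.choose (2 * k) k : ℝ) with hCb
  have hCpos : 0 < Cb := by linarith
  obtain ⟨q, hq⟩ : ∃ q : ℝ, c k 3 = -15 * q := ⟨- c k 3 / 15, by ring⟩
  set m : ℝ := 2 * k - 1 with hm
  have hm9 : 9 ≤ m := by linarith
  have f2 : c k 2 = 3 * (m - 4) * q := by
    rw [hq] at e2; linarith
  have f1 : c k 1 = -((m - 2) * (m - 4) * q) := by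
    rw [f2] at e1; linarith
  have f0 : Cb = m * (m - 2) * (m - 4) * q := by
    rw [f1] at e0; linarith
  have hqpos : 0 < q := by
    rw [f0] at hCpos
    exact (pos_iff_pos_of_mul_pos hCpos).1 (by
      apply mul_pos (mul_pos _ _) _ <;> linarith)
  have hv : (2 * c k 2 - c k 1 + c k 3) / 2 = (6 * (m - 4) + (m - 2) * (m - 4) - 15) * q / 2 := by
    rw [f2, f1, hq]; ring
  have hpos : 0 < (2 * c k 2 - c k 1 + c k 3) / 2 := by
    rw [hv]
    have : 0 < (6 * (m - 4) + (m - 2) * (m - 4) - 15) * q := by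
      apply mul_pos _ hqpos
      nlinarith
    linarith
  rcases neg_one_pow_eq_or ℝ k with h3 | h3
  · rw [h3, one_mul]
    intro h
    rw [hv] at h
    -- v ≤ C/2
    have h5 : (6 * (m - 4) + (m - 2) * (m - 4) - 15) * q ≤ (m * (m - 2) * (m - 4)) * q := by
      apply mul_le_mul_of_nonneg_right _ hqpos.le
      nlinarith [mul_nonneg (show (0:ℝ) ≤ m - 4 by linarith) (show (0:ℝ) ≤ m - 9 by linarith),
        mul_nonneg (show (0:ℝ) ≤ (m - 4) * (m - 2) by nlinarith) (show (0:ℝ) ≤ m - 9 by linarith)]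
    rw [← f0] at h5
    linarith
  · rw [h3]
    intro h
    linarith

end Pool.Agent.Q168.EJ
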