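import Mathlib
import Pool.Agent.Q168.EJ.Kraw

set_option autoImplicit false

namespace Pool.Agent.Q168.EJ

open Finset

/-- The `k`-element subsets of a `2k`-element set. -/
abbrev V (k : ℕ) : Type := {A : Finset (Fin (2 * k)) // A.card = k}

/-- The complement. -/
def cpl {k : ℕ} (A : V k) : V k :=
  ⟨(A.1)ᶜ, by rw [card_compl, Fintype.card_fin, A.2]; omega⟩

@[simp] theorem cpl_cpl {k : ℕ} (A : V k) : cpl (cpl A) = A := by
  apply Subtype.ext; simp [cpl]

theorem mem_cpl {k : ℕ} (A : V k) (x : Fin (2 * k)) : x ∈ (cpl A).1 ↔ x ∉ A.1 := by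
  simp [cpl]

/-- sign function of a set -/
noncomputable def sgn {k : ℕ} (W : Finset (Fin (2 * k))) (x : Fin (2 * k)) : ℝ :=
  if x ∈ W then -1 else 1

theorem sgn_sq {k : ℕ} (W : Finset (Fin (2 * k))) (x : Fin (2 * k)) : sgn W x * sgn W x = 1 := by
  unfold sgn; split_ifs <;> norm_num

theorem prod_sgn {k : ℕ} (W Z : Finset (Fin (2 * k))) :
    ∏ x ∈ Z, sgn W x = (-1 : ℝ) ^ (Z ∩ W).card := by
  unfold sgn
  rw [prod_ite, prod_const, prod_const_one, mul_one, filter_mem_eq_inter]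

theorem sgn_symmDiff {k : ℕ} (W Z : Finset (Fin (2 * k))) (x : Fin (2 * k)) :
    sgn (symmDiff W Z) x = sgn W x * sgn Z x := by
  unfold sgn
  by_cases h1 : x ∈ W <;> by_cases h2 : x ∈ Z <;> simp [mem_symmDiff, h1, h2]

open Polynomial in
theorem sum_sign {k : ℕ} (W : Finset (Fin (2 * k))) :
    ∑ Z : V k, ∏ x ∈ Z.1, sgn W x
      = ((1 - X : ℝ[X]) ^ W.card * (1 + X) ^ (2 * k - W.card)).coeff k := by
  have h1 : ∏ x : Fin (2 * k), (1 + C (sgn W x) * X)
      = (1 - X : ℝ[X]) ^ W.card * (1 + X) ^ (2 * k - W.card) := by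
    have : ∀ x : Fin (2 * k), (1 + C (sgn W x) * X : ℝ[X]) = if x ∈ W then 1 - X else 1 + X := by
      intro x
      unfold sgn
      split_ifs
      · simp [sub_eq_add_neg]
      · simp
    rw [prod_congr rfl (fun x _ => this x), prod_ite, prod_const, prod_const]
    have e1 : (univ.filter fun x => x ∈ W) = W := by ext; simp
    have e2 : (univ.filter fun x => x ∉ W) = Wᶜ := by ext; simp
    rw [e1, e2, card_compl, Fintype.card_fin]
  rw [← h1, prod_one_add]
  rw [finsetSum_coeff]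
  have h2 : ∀ t ∈ (univ : Finset (Fin (2 * k))).powerset,
      (∏ i ∈ t, (C (sgn W i) * X : ℝ[X])).coeff k
        = if t.card = k then ∏ i ∈ t, sgn W i else 0 := by
    intro t _
    rw [prod_mul_distrib, prod_const, ← map_prod, coeff_C_mul, coeff_X_pow]
    by_cases h : t.card = k
    · simp [h]
    · simp [h, Ne.symm h]
  rw [sum_congr rfl h2, ← sum_filter]
  rw [← sum_subtype (p := fun t : Finset (Fin (2 * k)) => t.card = k)
    ((univ : Finset (Fin (2 * k))).powerset.filter fun t => t.card = k) (by simp)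
    (fun t => ∏ i ∈ t, sgn W i)]

/-- The sign matrix. -/
noncomputable def H (k : ℕ) : Matrix (V k) (V k) ℝ := fun X Y => ∏ x ∈ Y.1, sgn X.1 x

theorem H_eq {k : ℕ} (X Y : V k) : H k X Y = (-1) ^ (X.1 ∩ Y.1).card := by
  unfold H; rw [prod_sgn, inter_comm]

theorem H_symm {k : ℕ} (X Y : V k) : H k X Y = H k Y X := by
  rw [H_eq, H_eq, inter_comm]

theorem H_sq {k : ℕ} (X Y : V k) : (H k * H k) X Y = c k (X.1 \ Y.1).card := by
  rw [Matrix.mul_apply]
  have h1 : ∀ Z : V k, H k X Z * H k Z Y = ∏ x ∈ Z.1, sgn (symmDiff X.1 Y.1) x := by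
    intro Z
    rw [H_symm Z Y]
    unfold H
    rw [← prod_mul_distrib]
    exact prod_congr rfl fun x _ => (sgn_symmDiff _ _ _).symm
  rw [sum_congr rfl fun Z _ => h1 Z, sum_sign]
  have h2 : (symmDiff X.1 Y.1).card = 2 * (X.1 \ Y.1).card := by
    have h3 : Disjoint (X.1 \ Y.1) (Y.1 \ X.1) := disjoint_sdiff_sdiff
    have h4 : (X.1 \ Y.1).card = (Y.1 \ X.1).card := card_sdiff_comm (X.2.trans Y.2.symm)
    have h5 : symmDiff X.1 Y.1 = (X.1 \ Y.1) ∪ (Y.1 \ X.1) := rfl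
    rw [h5, card_union_of_disjoint h3, ← h4]; ring
  unfold c
  rw [h2, Nat.mul_sub]

/-- The row sum of `H`. -/
noncomputable def K (k : ℕ) : ℝ :=
  ((1 - Polynomial.X : Polynomial ℝ) ^ k * (1 + Polynomial.X) ^ (2 * k - k)).coeff k

theorem H_row {k : ℕ} (X : V k) : ∑ Y, H k X Y = K k := by
  unfold H K
  rw [sum_sign X.1, X.2]

theorem H_cpl {k : ℕ} (X Y : V k) : H k (cpl X) Y = (-1) ^ k * H k X Y := by
  unfold H
  have h1 : ∀ x, sgn (cpl X).1 x = (-1) * sgn X.1 x := by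
    intro x
    unfold sgn
    by_cases h : x ∈ X.1
    · have : x ∉ (cpl X).1 := by rw [mem_cpl]; simpa using h
      simp [h, this]
    · have : x ∈ (cpl X).1 := by rw [mem_cpl]; exact h
      simp [h, this]
  rw [prod_congr rfl fun x _ => h1 x, prod_mul_distrib, prod_const, Y.2]

theorem H_diag {k : ℕ} (X : V k) : H k X X = (-1) ^ k := by
  rw [H_eq, inter_self, X.2]

theorem card_V (k : ℕ) : Fintype.card (V k) = (2 * k).choose k := by
  rw [Fintype.card_finset_len, Fintype.card_fin]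

theorem cpl_ne {k : ℕ} (hk : 0 < k) (X : V k) : cpl X ≠ X := by
  intro h
  have hx : (⟨0, by omega⟩ : Fin (2 * k)) ∈ (cpl X).1 ↔ (⟨0, by omega⟩ : Fin (2 * k)) ∉ X.1 :=
    mem_cpl X _
  rw [h] at hx
  by_cases h' : (⟨0, by omega⟩ : Fin (2 * k)) ∈ X.1
  · exact (hx.1 h') h'
  · exact h' (hx.2 h')

end Pool.Agent.Q168.EJ
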