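import Mathlib
import Pool.Agent.Q168.EJ.Sets

set_option autoImplicit false

namespace Pool.Agent.Q168.EJ

open Finset Matrix

/-- `(1 + (-1)^k) / 2`. -/
noncomputable def ep (k : ℕ) : ℝ := (1 + (-1) ^ k) / 2

/-- The matrices considered. -/
structure Nice {k : ℕ} (M : Matrix (V k) (V k) ℝ) : Prop where
  symm : ∀ X Y, M X Y = M Y X
  pm : ∀ X Y, M X Y = 1 ∨ M X Y = -1
  diag : ∀ X, M X X = (-1) ^ k
  cpl : ∀ X Y, M (cpl X) Y = (-1) ^ k * M X Y
  row : ∀ X, ∑ Y, M X Y = K k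

/-- The graph of a matrix. -/
def Gr {k : ℕ} (M : Matrix (V k) (V k) ℝ) : SimpleGraph (V k) where
  Adj X Y := X ≠ Y ∧ Y ≠ cpl X ∧ X ≠ cpl Y ∧ M X Y = 1 ∧ M Y X = 1
  symm := ⟨fun _ _ h => ⟨h.1.symm, h.2.2.1, h.2.1, h.2.2.2.2, h.2.2.2.1⟩⟩
  loopless := ⟨fun _ h => h.1 rfl⟩

/-- all-one matrix -/
def J (k : ℕ) : Matrix (V k) (V k) ℝ := fun _ _ => 1

/-- complementation matrix -/
def P (k : ℕ) : Matrix (V k) (V k) ℝ := fun X Y => if Y = cpl X then 1 else 0

theorem eq_cpl_comm {k : ℕ} (X Y : V k) : Y = cpl X ↔ X = cpl Y := by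
  constructor <;> (intro h; rw [h, cpl_cpl])

/-- the adjacency matrix in terms of `M` -/
noncomputable def Am {k : ℕ} (M : Matrix (V k) (V k) ℝ) : Matrix (V k) (V k) ℝ :=
  (1 / 2 : ℝ) • (J k + M) - P k - ep k • (1 : Matrix (V k) (V k) ℝ)

theorem Am_apply {k : ℕ} (M : Matrix (V k) (V k) ℝ) (X Y : V k) :
    Am M X Y = (1 + M X Y) / 2 - (if Y = cpl X then 1 else 0) - ep k * (if X = Y then 1 else 0) := by
  have h : Am M X Y = (1 / 2 : ℝ) * (1 + M X Y) - (if Y = cpl X then 1 else 0)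
      - ep k * (1 : Matrix (V k) (V k) ℝ) X Y := rfl
  rw [h, Matrix.one_apply]
  ring

theorem sg_sq (k : ℕ) : ((-1 : ℝ) ^ k) * ((-1 : ℝ) ^ k) = 1 := by
  rw [← mul_pow]; norm_num

theorem adjMatrix_eq {k : ℕ} (hk : 0 < k) {M : Matrix (V k) (V k) ℝ} (hM : Nice M)
    [DecidableRel (Gr M).Adj] : (Gr M).adjMatrix ℝ = Am M := by
  ext X Y
  rw [Am_apply, SimpleGraph.adjMatrix_apply]
  by_cases h1 : X = Y
  · subst h1
    have h2 : ¬ (Gr M).Adj X X := fun h => h.1 rfl
    have h3 : ¬ (X = cpl X) := fun h => cpl_ne hk X h.symm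
    rw [if_neg h2, if_neg h3, if_pos rfl, hM.diag, ep]; ring
  · rw [if_neg h1]
    by_cases h2 : Y = cpl X
    · have h3 : ¬ (Gr M).Adj X Y := fun h => h.2.1 h2
      rw [if_neg h3, if_pos h2, h2, hM.symm, hM.cpl, hM.diag, sg_sq]; ring
    · rw [if_neg h2]
      have h3 : X ≠ cpl Y := fun h => h2 ((eq_cpl_comm _ _).2 h)
      rcases hM.pm X Y with h4 | h4
      · have h5 : (Gr M).Adj X Y := ⟨h1, h2, h3, h4, by rw [hM.symm]; exact h4⟩
        rw [if_pos h5, h4]; ring
      · have h5 : ¬ (Gr M).Adj X Y := fun h => by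
          have := h.2.2.2.1
          rw [h4] at this; norm_num at this
        rw [if_neg h5, h4]; ring

theorem Am_sq {k : ℕ} {M : Matrix (V k) (V k) ℝ} (hM : Nice M) (X Y : V k) :
    (Am M * Am M) X Y = ((2 * k).choose k + 2 * K k + (M * M) X Y) / 4
      - (1 + (-1) ^ k * M X Y) - ep k * (1 + M X Y)
      + (if X = Y then 1 else 0) * (1 + ep k * ep k) + 2 * ep k * (if Y = cpl X then 1 else 0) := by
  rw [Matrix.mul_apply, Matrix.mul_apply]
  simp only [Am_apply]
  have e : ∀ Z : V k, ((1 + M X Z) / 2 - (if Z = cpl X then 1 else 0)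
      - ep k * (if X = Z then 1 else 0)) * ((1 + M Z Y) / 2 - (if Y = cpl Z then 1 else 0)
      - ep k * (if Z = Y then 1 else 0))
      = (1 + M X Z + M Z Y + M X Z * M Z Y) / 4
        - (if Z = cpl Y then (1 + M X Z) / 2 else 0) - ep k * (if Z = Y then (1 + M X Z) / 2 else 0)
        - (if Z = cpl X then (1 + M Z Y) / 2 else 0) + (if Z = cpl X then (if X = Y then 1 else 0) else 0)
        + ep k * (if Z = Y then (if Y = cpl X then 1 else 0) else 0)
        - ep k * (if Z = X then (1 + M Z Y) / 2 else 0)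
        + ep k * (if Z = X then (if Y = cpl X then 1 else 0) else 0)
        + ep k * ep k * (if Z = X then (if X = Y then 1 else 0) else 0) := by
    intro Z
    have a1 : (Y = cpl Z) ↔ (Z = cpl Y) := eq_cpl_comm _ _
    have a2 : (if Z = cpl X then (1 : ℝ) else 0) * (if Z = cpl Y then 1 else 0)
        = (if Z = cpl X then (if X = Y then 1 else 0) else 0) := by
      by_cases h : Z = cpl X
      · subst h
        by_cases h' : X = Y
        · subst h'; simp
        · have : ¬ (cpl X = cpl Y) := fun h => h' (by rw [← cpl_cpl X, h, cpl_cpl])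
          simp [h', this]
      · simp [h]
    have a3 : (if Z = cpl X then (1 : ℝ) else 0) * (if Z = Y then 1 else 0)
        = (if Z = Y then (if Y = cpl X then 1 else 0) else 0) := by
      by_cases h : Z = Y
      · subst h; simp
      · simp [h]
    have a4 : (if X = Z then (1 : ℝ) else 0) = if Z = X then 1 else 0 := by
      simp only [eq_comm]
    have a5 : (if Z = X then (1 : ℝ) else 0) * (if Z = cpl Y then 1 else 0)
        = (if Z = X then (if Y = cpl X then 1 else 0) else 0) := by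
      by_cases h : Z = X
      · subst h; simp [eq_cpl_comm Z Y]
      · simp [h]
    have a6 : (if Z = X then (1 : ℝ) else 0) * (if Z = Y then 1 else 0)
        = (if Z = X then (if X = Y then 1 else 0) else 0) := by
      by_cases h : Z = X
      · subst h; simp
      · simp [h]
    have b : ∀ (p : Prop) [Decidable p] (t : ℝ), (if p then t else 0) = t * (if p then 1 else 0) := by
      intro p _ t; split_ifs <;> simp
    simp only [a1]
    rw [← a2, ← a3, ← a5, ← a6, a4, b (Z = cpl Y) ((1 + M X Z) / 2), b (Z = Y) ((1 + M X Z) / 2),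
      b (Z = cpl X) ((1 + M Z Y) / 2), b (Z = X) ((1 + M Z Y) / 2)]
    ring
  rw [sum_congr rfl fun Z _ => e Z]
  simp only [sum_add_distrib, sum_sub_distrib, ← mul_sum, sum_ite_eq', mem_univ, if_true, ← sum_div]
  have s1 : ∑ Z, M X Z = K k := hM.row X
  have s2 : ∑ Z, M Z Y = K k := by
    rw [sum_congr rfl fun Z _ => hM.symm Z Y]; exact hM.row Y
  have s3 : ∑ _Z : V k, (1 : ℝ) = (2 * k).choose k := by
    rw [sum_const, card_univ, card_V]; simp
  have s4 : M X (cpl Y) = (-1) ^ k * M X Y := by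
    rw [hM.symm, hM.cpl, hM.symm]
  rw [s1, s2, s3, s4, hM.cpl]
  ring

/-- The common-neighbour functional. -/
noncomputable def F {k : ℕ} (A : Matrix (V k) (V k) ℝ) (X Y : V k) : ℝ :=
  4 * (A * A) X Y + 8 * ((-1) ^ k + ep k) * A X Y - ((2 * k).choose k + 2 * K k - 4 + 4 * (-1) ^ k)

theorem F_eq {k : ℕ} {M : Matrix (V k) (V k) ℝ} (hM : Nice M) (X Y : V k) (h1 : X ≠ Y)
    (h2 : Y ≠ cpl X) : F (Am M) X Y = (M * M) X Y := by
  unfold F
  rw [Am_sq hM, Am_apply, if_neg h1, if_neg h2, ep]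
  rcases neg_one_pow_eq_or ℝ k with h | h <;> rw [h] <;> ring

theorem F_eq' {k : ℕ} (hk : 0 < k) {M : Matrix (V k) (V k) ℝ} (hM : Nice M) (X : V k) :
    F (Am M) X (cpl X) = (M * M) X (cpl X) - 8 * (-1) ^ k := by
  unfold F
  have h1 : X ≠ cpl X := fun h => cpl_ne hk X h.symm
  rw [Am_sq hM, Am_apply, if_neg h1, if_pos rfl, ep, hM.symm X, hM.cpl, hM.diag, sg_sq]
  rcases neg_one_pow_eq_or ℝ k with h | h <;> rw [h] <;> ring

theorem H_nice (k : ℕ) : Nice (H k) where
  symm := H_symm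
  pm := fun X Y => by
    rw [H_eq]
    exact neg_one_pow_eq_or ℝ _
  diag := H_diag
  cpl := H_cpl
  row := H_row

theorem H_sq_cpl {k : ℕ} (X : V k) : (H k * H k) X (cpl X) = (-1) ^ k * (2 * k).choose k := by
  rw [H_sq]
  have h : (X.1 \ (cpl X).1).card = k := by
    have : X.1 \ (cpl X).1 = X.1 := by
      ext x; simp [cpl]
    rw [this, X.2]
  rw [h]
  have := c_reflect k 0 (Nat.zero_le k)
  rw [Nat.sub_zero, c_zero] at this
  exact this

end Pool.Agent.Q168.EJ
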