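import Mathlib
import Pool.Agent.Q168.EJ.Gr

set_option autoImplicit false

namespace Pool.Agent.Q168.EJ

open Finset Matrix

/-- The data of the switching. -/
structure Cfg (k : ℕ) where
  al : Fin (2 * k)
  be : Fin (2 * k)
  ga : Fin (2 * k)
  de : Fin (2 * k)
  s : Fin (2 * k)
  s2 : Fin (2 * k)
  y : Fin (2 * k)
  T : Finset (Fin (2 * k))
  card : T.card + 2 = k
  al_T : al ∉ T
  be_T : be ∉ T
  ga_T : ga ∉ T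
  de_T : de ∉ T
  s_T : s ∈ T
  s2_T : s2 ∈ T
  y_T : y ∉ T
  al_be : al ≠ be
  al_ga : al ≠ ga
  al_de : al ≠ de
  be_ga : be ≠ ga
  be_de : be ≠ de
  ga_de : ga ≠ de
  y_al : y ≠ al
  y_be : y ≠ be
  y_ga : y ≠ ga
  y_de : y ≠ de
  s_s2 : s2 ≠ s

variable {k : ℕ} (Γ : Cfg k)

/-- `T` with two further points -/
def Cfg.pt (p q : Fin (2 * k)) (hp : p ∉ Γ.T) (hq : q ∉ Γ.T) (hpq : p ≠ q) : V k :=
  ⟨insert p (insert q Γ.T), by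
    rw [card_insert_of_notMem (by simp [hpq, hp]), card_insert_of_notMem hq]
    have := Γ.card
    omega⟩

def Cfg.A1 : V k := Γ.pt Γ.al Γ.ga Γ.al_T Γ.ga_T Γ.al_ga
def Cfg.A2 : V k := Γ.pt Γ.al Γ.de Γ.al_T Γ.de_T Γ.al_de
def Cfg.A3 : V k := Γ.pt Γ.be Γ.ga Γ.be_T Γ.ga_T Γ.be_ga
def Cfg.A4 : V k := Γ.pt Γ.be Γ.de Γ.be_T Γ.de_T Γ.be_de

/-- the sign of `T` -/
noncomputable def Cfg.t (X : V k) : ℝ := ∏ x ∈ Γ.T, sgn X.1 x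

theorem Cfg.H_pt (X : V k) (p q : Fin (2 * k)) (hp : p ∉ Γ.T) (hq : q ∉ Γ.T) (hpq : p ≠ q) :
    H k X (Γ.pt p q hp hq hpq) = sgn X.1 p * (sgn X.1 q * Γ.t X) := by
  unfold H Cfg.pt Cfg.t
  simp only
  rw [prod_insert, prod_insert hq]
  simp [hpq, hp]

/-- The vector `u`. -/
noncomputable def Cfg.u : V k → ℝ :=
  Pi.single Γ.A1 1 + Pi.single Γ.A2 1 - Pi.single Γ.A3 1 - Pi.single Γ.A4 1

theorem Cfg.sum_u (f : V k → ℝ) : ∑ Y, Γ.u Y * f Y = f Γ.A1 + f Γ.A2 - f Γ.A3 - f Γ.A4 := by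
  unfold Cfg.u
  simp only [Pi.add_apply, Pi.sub_apply, add_mul, sub_mul, sum_add_distrib, sum_sub_distrib,
    Pi.single_apply, ite_mul, one_mul, zero_mul, sum_ite_eq', mem_univ, if_true]

theorem Cfg.u_ne (Y : V k) (h : ¬ Γ.T ⊆ Y.1) : Γ.u Y = 0 := by
  have h1 : ∀ p q hp hq hpq, Y ≠ Γ.pt p q hp hq hpq := by
    intro p q hp hq hpq h'
    apply h
    rw [h']
    intro x hx
    simp [Cfg.pt, hx]
  unfold Cfg.u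
  simp only [Pi.add_apply, Pi.sub_apply, Pi.single_apply]
  rw [if_neg (show Y ≠ Γ.A1 from h1 _ _ _ _ _), if_neg (show Y ≠ Γ.A2 from h1 _ _ _ _ _),
    if_neg (show Y ≠ Γ.A3 from h1 _ _ _ _ _), if_neg (show Y ≠ Γ.A4 from h1 _ _ _ _ _)]
  norm_num

theorem Cfg.u_cases (Y : V k) (h : Γ.u Y ≠ 0) :
    Y = Γ.A1 ∨ Y = Γ.A2 ∨ Y = Γ.A3 ∨ Y = Γ.A4 := by
  by_contra hcon
  push Not at hcon
  apply h
  unfold Cfg.u
  simp only [Pi.add_apply, Pi.sub_apply, Pi.single_apply]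
  rw [if_neg hcon.1, if_neg hcon.2.1, if_neg hcon.2.2.1, if_neg hcon.2.2.2]
  norm_num

theorem Cfg.A12 : Γ.A1 ≠ Γ.A2 := by
  intro h
  have h1 : Γ.ga ∈ Γ.A1.1 := by simp [Cfg.A1, Cfg.pt]
  rw [h] at h1
  simp [Cfg.A2, Cfg.pt, Γ.al_ga.symm, Γ.ga_de, Γ.ga_T] at h1

theorem Cfg.A13 : Γ.A1 ≠ Γ.A3 := by
  intro h
  have h1 : Γ.al ∈ Γ.A1.1 := by simp [Cfg.A1, Cfg.pt]
  rw [h] at h1
  simp [Cfg.A3, Cfg.pt, Γ.al_ga, Γ.al_be, Γ.al_T] at h1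

theorem Cfg.A14 : Γ.A1 ≠ Γ.A4 := by
  intro h
  have h1 : Γ.al ∈ Γ.A1.1 := by simp [Cfg.A1, Cfg.pt]
  rw [h] at h1
  simp [Cfg.A4, Cfg.pt, Γ.al_de, Γ.al_be, Γ.al_T] at h1

theorem Cfg.A23 : Γ.A2 ≠ Γ.A3 := by
  intro h
  have h1 : Γ.al ∈ Γ.A2.1 := by simp [Cfg.A2, Cfg.pt]
  rw [h] at h1
  simp [Cfg.A3, Cfg.pt, Γ.al_ga, Γ.al_be, Γ.al_T] at h1

theorem Cfg.A24 : Γ.A2 ≠ Γ.A4 := by
  intro h
  have h1 : Γ.al ∈ Γ.A2.1 := by simp [Cfg.A2, Cfg.pt]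
  rw [h] at h1
  simp [Cfg.A4, Cfg.pt, Γ.al_de, Γ.al_be, Γ.al_T] at h1

theorem Cfg.A34 : Γ.A3 ≠ Γ.A4 := by
  intro h
  have h1 : Γ.ga ∈ Γ.A3.1 := by simp [Cfg.A3, Cfg.pt]
  rw [h] at h1
  simp [Cfg.A4, Cfg.pt, Γ.be_ga.symm, Γ.ga_de, Γ.ga_T] at h1

theorem Cfg.u1 : Γ.u Γ.A1 = 1 := by
  unfold Cfg.u
  simp [Γ.A12, Γ.A13, Γ.A14]

theorem Cfg.u2 : Γ.u Γ.A2 = 1 := by
  unfold Cfg.u
  simp [Γ.A12.symm, Γ.A23, Γ.A24]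

theorem Cfg.u3 : Γ.u Γ.A3 = -1 := by
  unfold Cfg.u
  simp [Γ.A13.symm, Γ.A23.symm, Γ.A34]

theorem Cfg.u4 : Γ.u Γ.A4 = -1 := by
  unfold Cfg.u
  simp [Γ.A14.symm, Γ.A24.symm, Γ.A34.symm]

theorem Cfg.u_cpl (p q : Fin (2 * k)) (hp : p ∉ Γ.T) (hq : q ∉ Γ.T) (hpq : p ≠ q) :
    Γ.u (cpl (Γ.pt p q hp hq hpq)) = 0 := by
  apply Γ.u_ne
  intro h
  have := h Γ.s_T
  rw [mem_cpl] at this
  apply this
  simp [Cfg.pt, Γ.s_T]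

/-- The vector `w`. -/
noncomputable def Cfg.w (Y : V k) : ℝ := Γ.u Y + (-1) ^ k * Γ.u (cpl Y)

theorem Cfg.w_cpl (Y : V k) : Γ.w (cpl Y) = (-1) ^ k * Γ.w Y := by
  unfold Cfg.w
  rw [cpl_cpl, mul_add, ← mul_assoc, sg_sq]; ring

def cplEquiv (k : ℕ) : V k ≃ V k := ⟨cpl, cpl, cpl_cpl, cpl_cpl⟩

theorem Cfg.sum_w (f : V k → ℝ) (hf : ∀ Y, f (cpl Y) = (-1) ^ k * f Y) :
    ∑ Y, Γ.w Y * f Y = 2 * (f Γ.A1 + f Γ.A2 - f Γ.A3 - f Γ.A4) := by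
  unfold Cfg.w
  simp only [add_mul, sum_add_distrib]
  have h1 : ∑ Y, (-1) ^ k * Γ.u (cpl Y) * f Y = ∑ Y, Γ.u Y * f Y := by
    rw [← (cplEquiv k).sum_comp]
    apply sum_congr rfl
    intro Y _
    show (-1) ^ k * Γ.u (cpl (cpl Y)) * f (cpl Y) = _
    rw [cpl_cpl, hf]
    have := sg_sq k
    linear_combination (Γ.u Y * f Y) * this
  rw [h1, Γ.sum_u]; ring

theorem Cfg.sum_w_one : ∑ Y, Γ.w Y = 0 := by
  unfold Cfg.w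
  rw [sum_add_distrib, ← mul_sum]
  have h0 : ∑ Y, Γ.u Y = 0 := by
    have := Γ.sum_u (fun _ => 1)
    simp only [mul_one] at this
    rw [this]; norm_num
  have h1 : ∑ Y, Γ.u (cpl Y) = ∑ Y, Γ.u Y := (cplEquiv k).sum_comp _
  rw [h1, h0]; norm_num

theorem Cfg.w_pt {p q : Fin (2 * k)} {hp : p ∉ Γ.T} {hq : q ∉ Γ.T} {hpq : p ≠ q} :
    Γ.w (Γ.pt p q hp hq hpq) = Γ.u (Γ.pt p q hp hq hpq) := by
  unfold Cfg.w
  rw [Γ.u_cpl]; ring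

theorem Cfg.w1 : Γ.w Γ.A1 = 1 := (Γ.w_pt).trans Γ.u1
theorem Cfg.w2 : Γ.w Γ.A2 = 1 := (Γ.w_pt).trans Γ.u2
theorem Cfg.w3 : Γ.w Γ.A3 = -1 := (Γ.w_pt).trans Γ.u3
theorem Cfg.w4 : Γ.w Γ.A4 = -1 := (Γ.w_pt).trans Γ.u4

theorem Cfg.w_dot : Γ.w ⬝ᵥ Γ.w = 8 := by
  unfold dotProduct
  rw [Γ.sum_w Γ.w Γ.w_cpl, Γ.w1, Γ.w2, Γ.w3, Γ.w4]; norm_num

/-- `g` -/
noncomputable def Cfg.g (X : V k) : ℝ :=
  Γ.t X * ((sgn X.1 Γ.al - sgn X.1 Γ.be) * (sgn X.1 Γ.ga + sgn X.1 Γ.de))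

theorem Cfg.H_w (X : V k) : (H k *ᵥ Γ.w) X = 2 * Γ.g X := by
  have h1 : (H k *ᵥ Γ.w) X = ∑ Y, Γ.w Y * H k X Y := by
    unfold Matrix.mulVec dotProduct
    exact sum_congr rfl fun Y _ => mul_comm _ _
  rw [h1, Γ.sum_w (fun Y => H k X Y) (fun Y => by
    rw [H_symm X (cpl Y), H_cpl, H_symm Y X])]
  unfold Cfg.A1 Cfg.A2 Cfg.A3 Cfg.A4 Cfg.g
  rw [Γ.H_pt, Γ.H_pt, Γ.H_pt, Γ.H_pt]
  ring

theorem Cfg.g_cpl (X : V k) : Γ.g (cpl X) = (-1) ^ k * Γ.g X := by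
  have h1 : (H k *ᵥ Γ.w) (cpl X) = (-1) ^ k * (H k *ᵥ Γ.w) X := by
    unfold Matrix.mulVec dotProduct
    rw [mul_sum]
    apply sum_congr rfl
    intro Y _
    show H k (cpl X) Y * Γ.w Y = (-1) ^ k * (H k X Y * Γ.w Y)
    rw [H_cpl]; ring
  rw [Γ.H_w, Γ.H_w] at h1
  linarith

theorem sgn_mem {W : Finset (Fin (2 * k))} {x : Fin (2 * k)} (h : x ∈ W) : sgn W x = -1 := by
  unfold sgn; rw [if_pos h]

theorem sgn_notMem {W : Finset (Fin (2 * k))} {x : Fin (2 * k)} (h : x ∉ W) : sgn W x = 1 := by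
  unfold sgn; rw [if_neg h]

theorem Cfg.g1 : Γ.g Γ.A1 = 0 := by
  unfold Cfg.g
  rw [sgn_mem (x := Γ.ga) (by simp [Cfg.A1, Cfg.pt]),
    sgn_notMem (x := Γ.de) (by simp [Cfg.A1, Cfg.pt, Γ.al_de.symm, Γ.ga_de.symm, Γ.de_T])]
  ring

theorem Cfg.g2 : Γ.g Γ.A2 = 0 := by
  unfold Cfg.g
  rw [sgn_mem (x := Γ.de) (by simp [Cfg.A2, Cfg.pt]),
    sgn_notMem (x := Γ.ga) (by simp [Cfg.A2, Cfg.pt, Γ.al_ga.symm, Γ.ga_de, Γ.ga_T])]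
  ring

theorem Cfg.g3 : Γ.g Γ.A3 = 0 := by
  unfold Cfg.g
  rw [sgn_mem (x := Γ.ga) (by simp [Cfg.A3, Cfg.pt]),
    sgn_notMem (x := Γ.de) (by simp [Cfg.A3, Cfg.pt, Γ.be_de.symm, Γ.ga_de.symm, Γ.de_T])]
  ring

theorem Cfg.g4 : Γ.g Γ.A4 = 0 := by
  unfold Cfg.g
  rw [sgn_mem (x := Γ.de) (by simp [Cfg.A4, Cfg.pt]),
    sgn_notMem (x := Γ.ga) (by simp [Cfg.A4, Cfg.pt, Γ.be_ga.symm, Γ.ga_de, Γ.ga_T])]
  ring

theorem Cfg.w_cases (Y : V k) (h : Γ.w Y ≠ 0) :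
    (Y = Γ.A1 ∨ Y = Γ.A2 ∨ Y = Γ.A3 ∨ Y = Γ.A4) ∨
    (cpl Y = Γ.A1 ∨ cpl Y = Γ.A2 ∨ cpl Y = Γ.A3 ∨ cpl Y = Γ.A4) := by
  by_cases h1 : Γ.u Y = 0
  · right
    apply Γ.u_cases
    intro h2
    apply h
    unfold Cfg.w
    rw [h1, h2]; ring
  · left; exact Γ.u_cases Y h1

theorem Cfg.g_zero (Y : V k) (h : Γ.w Y ≠ 0) : Γ.g Y = 0 := by
  have key : ∀ Z : V k, (Z = Γ.A1 ∨ Z = Γ.A2 ∨ Z = Γ.A3 ∨ Z = Γ.A4) → Γ.g Z = 0 := by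
    rintro Z (rfl | rfl | rfl | rfl)
    exacts [Γ.g1, Γ.g2, Γ.g3, Γ.g4]
  rcases Γ.w_cases Y h with h1 | h1
  · exact key Y h1
  · have h2 := key _ h1
    rw [Γ.g_cpl] at h2
    rcases mul_eq_zero.1 h2 with h3 | h3
    · exact absurd h3 (pow_ne_zero _ (by norm_num))
    · exact h3

/-- The reflection. -/
noncomputable def Cfg.W : Matrix (V k) (V k) ℝ := 1 - (1 / 4 : ℝ) • vecMulVec Γ.w Γ.w

theorem Cfg.W_sq : Γ.W * Γ.W = 1 := by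
  have h : vecMulVec Γ.w Γ.w * vecMulVec Γ.w Γ.w = (8 : ℝ) • vecMulVec Γ.w Γ.w := by
    rw [vecMulVec_mul_vecMulVec, Γ.w_dot, vecMulVec_smul]
  unfold Cfg.W
  rw [Matrix.sub_mul, Matrix.mul_sub, Matrix.mul_sub, Matrix.one_mul, Matrix.one_mul,
    Matrix.mul_one, Matrix.smul_mul, Matrix.mul_smul, h]
  module

theorem Cfg.conj_apply (M : Matrix (V k) (V k) ℝ) (hM : ∀ X Y, M X Y = M Y X) (X Y : V k) :
    (Γ.W * M * Γ.W) X Y = M X Y - (Γ.w X * (M *ᵥ Γ.w) Y + (M *ᵥ Γ.w) X * Γ.w Y) / 4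
      + (Γ.w ⬝ᵥ (M *ᵥ Γ.w)) * Γ.w X * Γ.w Y / 16 := by
  have h0 : Γ.w ᵥ* M = M *ᵥ Γ.w := by
    ext Z
    unfold Matrix.vecMul Matrix.mulVec dotProduct
    refine sum_congr rfl fun Y _ => ?_
    show Γ.w Y * M Y Z = M Z Y * Γ.w Y
    rw [hM Y Z]; ring
  have h1 : Γ.W * M * Γ.W = M - (1 / 4 : ℝ) • vecMulVec Γ.w (M *ᵥ Γ.w)
      - (1 / 4 : ℝ) • vecMulVec (M *ᵥ Γ.w) Γ.w
      + (1 / 16 : ℝ) • vecMulVec Γ.w ((Γ.w ⬝ᵥ (M *ᵥ Γ.w)) • Γ.w) := by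
    unfold Cfg.W
    rw [Matrix.sub_mul, Matrix.one_mul, Matrix.smul_mul, vecMulVec_mul, h0, Matrix.mul_sub,
      Matrix.mul_one, Matrix.mul_smul, Matrix.sub_mul, mul_vecMulVec, Matrix.smul_mul,
      vecMulVec_mul_vecMulVec, dotProduct_comm]
    module
  rw [h1]
  simp only [Matrix.add_apply, Matrix.sub_apply, Matrix.smul_apply, vecMulVec_apply, smul_eq_mul,
    Pi.smul_apply]
  ring

/-- The switched sign matrix. -/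
noncomputable def Cfg.B : Matrix (V k) (V k) ℝ := Γ.W * H k * Γ.W

theorem Cfg.B_apply (X Y : V k) :
    Γ.B X Y = H k X Y - (Γ.w X * Γ.g Y + Γ.g X * Γ.w Y) / 2 := by
  unfold Cfg.B
  rw [Γ.conj_apply (H k) H_symm, Γ.H_w, Γ.H_w]
  have h : Γ.w ⬝ᵥ (H k *ᵥ Γ.w) = 0 := by
    unfold dotProduct
    apply sum_eq_zero
    intro Z _
    rw [Γ.H_w]
    by_cases h : Γ.w Z = 0
    · rw [h, zero_mul]
    · rw [Γ.g_zero Z h]; ring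
  rw [h]; ring

theorem Cfg.B_symm (X Y : V k) : Γ.B X Y = Γ.B Y X := by
  rw [Γ.B_apply, Γ.B_apply, H_symm]; ring

theorem Cfg.B_cpl (X Y : V k) : Γ.B (cpl X) Y = (-1) ^ k * Γ.B X Y := by
  rw [Γ.B_apply, Γ.B_apply, H_cpl, Γ.w_cpl, Γ.g_cpl]; ring

theorem sgn_pm (W : Finset (Fin (2 * k))) (x : Fin (2 * k)) : sgn W x = 1 ∨ sgn W x = -1 := by
  unfold sgn; split_ifs <;> simp

theorem Cfg.t_pm (X : V k) : Γ.t X = 1 ∨ Γ.t X = -1 := by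
  unfold Cfg.t
  rw [prod_sgn]
  exact neg_one_pow_eq_or ℝ _

theorem Cfg.B_pm_aux (X Y : V k) (hX : Γ.w X = 0)
    (hY : Y = Γ.A1 ∨ Y = Γ.A2 ∨ Y = Γ.A3 ∨ Y = Γ.A4) : Γ.B X Y = 1 ∨ Γ.B X Y = -1 := by
  rw [Γ.B_apply, hX]
  rcases hY with rfl | rfl | rfl | rfl
  · rw [Γ.w1, Γ.g1]
    unfold Cfg.A1 Cfg.g
    rw [Γ.H_pt]
    rcases Γ.t_pm X with h | h <;> rcases sgn_pm X.1 Γ.al with h1 | h1 <;>
    rcases sgn_pm X.1 Γ.be with h2 | h2 <;> rcases sgn_pm X.1 Γ.ga with h3 | h3 <;>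
    rcases sgn_pm X.1 Γ.de with h4 | h4 <;> rw [h, h1, h2, h3, h4] <;> norm_num
  · rw [Γ.w2, Γ.g2]
    unfold Cfg.A2 Cfg.g
    rw [Γ.H_pt]
    rcases Γ.t_pm X with h | h <;> rcases sgn_pm X.1 Γ.al with h1 | h1 <;>
    rcases sgn_pm X.1 Γ.be with h2 | h2 <;> rcases sgn_pm X.1 Γ.ga with h3 | h3 <;>
    rcases sgn_pm X.1 Γ.de with h4 | h4 <;> rw [h, h1, h2, h3, h4] <;> norm_num
  · rw [Γ.w3, Γ.g3]
    unfold Cfg.A3 Cfg.g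
    rw [Γ.H_pt]
    rcases Γ.t_pm X with h | h <;> rcases sgn_pm X.1 Γ.al with h1 | h1 <;>
    rcases sgn_pm X.1 Γ.be with h2 | h2 <;> rcases sgn_pm X.1 Γ.ga with h3 | h3 <;>
    rcases sgn_pm X.1 Γ.de with h4 | h4 <;> rw [h, h1, h2, h3, h4] <;> norm_num
  · rw [Γ.w4, Γ.g4]
    unfold Cfg.A4 Cfg.g
    rw [Γ.H_pt]
    rcases Γ.t_pm X with h | h <;> rcases sgn_pm X.1 Γ.al with h1 | h1 <;>
    rcases sgn_pm X.1 Γ.be with h2 | h2 <;> rcases sgn_pm X.1 Γ.ga with h3 | h3 <;>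
    rcases sgn_pm X.1 Γ.de with h4 | h4 <;> rw [h, h1, h2, h3, h4] <;> norm_num

theorem Cfg.B_pm_aux2 (X Y : V k) (hX : Γ.w X = 0) (hY : Γ.w Y ≠ 0) :
    Γ.B X Y = 1 ∨ Γ.B X Y = -1 := by
  rcases Γ.w_cases Y hY with h | h
  · exact Γ.B_pm_aux X Y hX h
  · have h1 := Γ.B_pm_aux X (cpl Y) hX h
    have h2 : Γ.B X Y = (-1) ^ k * Γ.B X (cpl Y) := by
      rw [Γ.B_symm X Y, Γ.B_symm X (cpl Y), Γ.B_cpl, ← mul_assoc, sg_sq, one_mul]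
    rw [h2]
    rcases neg_one_pow_eq_or ℝ k with h3 | h3 <;> rcases h1 with h1 | h1 <;> rw [h3, h1] <;>
      norm_num

theorem Cfg.B_pm (X Y : V k) : Γ.B X Y = 1 ∨ Γ.B X Y = -1 := by
  by_cases hX : Γ.w X = 0
  · by_cases hY : Γ.w Y = 0
    · rw [Γ.B_apply, hX, hY, zero_mul, mul_zero, add_zero, zero_div, sub_zero]
      exact (H_nice k).pm X Y
    · exact Γ.B_pm_aux2 X Y hX hY
  · by_cases hY : Γ.w Y = 0
    · rw [Γ.B_symm]; exact Γ.B_pm_aux2 Y X hY hX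
    · rw [Γ.B_apply, Γ.g_zero X hX, Γ.g_zero Y hY, zero_mul, mul_zero, add_zero, zero_div, sub_zero]
      exact (H_nice k).pm X Y

theorem Cfg.J_w : J k *ᵥ Γ.w = 0 := by
  ext X
  unfold Matrix.mulVec dotProduct J
  simp only [one_mul, Pi.zero_apply]
  exact Γ.sum_w_one

theorem Cfg.conj_J : Γ.W * J k * Γ.W = J k := by
  ext X Y
  rw [Γ.conj_apply (J k) (fun _ _ => rfl), Γ.J_w]
  simp

theorem Cfg.P_w (X : V k) : (P k *ᵥ Γ.w) X = (-1) ^ k * Γ.w X := by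
  unfold Matrix.mulVec dotProduct P
  simp only [ite_mul, one_mul, zero_mul, sum_ite_eq', mem_univ, if_true]
  exact Γ.w_cpl X

theorem P_symm (X Y : V k) : P k X Y = P k Y X := by
  unfold P; simp only [eq_cpl_comm X Y]

theorem Cfg.conj_P : Γ.W * P k * Γ.W = P k := by
  ext X Y
  have h : Γ.w ⬝ᵥ (P k *ᵥ Γ.w) = 8 * (-1) ^ k := by
    have : P k *ᵥ Γ.w = ((-1 : ℝ) ^ k) • Γ.w := by
      ext X; rw [Γ.P_w]; rfl
    rw [this, dotProduct_smul, Γ.w_dot, smul_eq_mul]; ring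
  rw [Γ.conj_apply (P k) P_symm, Γ.P_w, Γ.P_w, h]
  ring

theorem Cfg.conj_Am : Γ.W * Am (H k) * Γ.W = Am Γ.B := by
  unfold Am Cfg.B
  rw [Matrix.mul_sub, Matrix.mul_sub, Matrix.mul_smul, Matrix.mul_add, Matrix.mul_smul,
    Matrix.mul_one, Matrix.sub_mul, Matrix.sub_mul, Matrix.smul_mul, Matrix.add_mul,
    Matrix.smul_mul, Γ.conj_J, Γ.conj_P, Γ.W_sq]

theorem J_apply (X Y : V k) : J k X Y = 1 := rfl

theorem Cfg.B_row (X : V k) : ∑ Y, Γ.B X Y = K k := by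
  have h1 : H k * J k = K k • J k := by
    ext X Y
    rw [Matrix.mul_apply]
    have : ∑ j, H k X j * J k j Y = ∑ j, H k X j := sum_congr rfl fun j _ => by
      rw [J_apply, mul_one]
    rw [this, H_row, Matrix.smul_apply, J_apply, smul_eq_mul, mul_one]
  have h2 : Γ.W * J k = J k := by
    unfold Cfg.W
    rw [Matrix.sub_mul, Matrix.one_mul, Matrix.smul_mul, vecMulVec_mul]
    have : Γ.w ᵥ* J k = 0 := by
      ext Z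
      unfold Matrix.vecMul dotProduct J
      simp only [mul_one, Pi.zero_apply]
      exact Γ.sum_w_one
    rw [this]
    simp
  have h3 : Γ.B * J k = K k • J k := by
    unfold Cfg.B
    rw [Matrix.mul_assoc, h2, Matrix.mul_assoc, h1, Matrix.mul_smul, h2]
  have h4 := congrFun (congrFun h3 X) X
  rw [Matrix.mul_apply] at h4
  have h5 : ∑ j, Γ.B X j * J k j X = ∑ j, Γ.B X j := sum_congr rfl fun j _ => by
    rw [J_apply, mul_one]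
  rw [h5, Matrix.smul_apply, J_apply, smul_eq_mul, mul_one] at h4
  exact h4

theorem Cfg.B_diag (X : V k) : Γ.B X X = (-1) ^ k := by
  rw [Γ.B_apply, H_diag]
  by_cases h : Γ.w X = 0
  · rw [h]; ring
  · rw [Γ.g_zero X h]; ring

theorem Cfg.B_nice : Nice Γ.B where
  symm := Γ.B_symm
  pm := Γ.B_pm
  diag := Γ.B_diag
  cpl := Γ.B_cpl
  row := Γ.B_row

/-- cospectrality -/
theorem Cfg.charpoly_eq : (Am Γ.B).charpoly = (Am (H k)).charpoly := by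
  rw [← Γ.conj_Am, Matrix.mul_assoc, Matrix.charpoly_mul_comm, Matrix.mul_assoc, Γ.W_sq,
    Matrix.mul_one]

/-- The exceptional set. -/
def Cfg.Xs : V k :=
  ⟨insert Γ.al (insert Γ.de (insert Γ.y (Γ.T.erase Γ.s))), by
    have h1 : Γ.y ∉ Γ.T.erase Γ.s := fun h => Γ.y_T (mem_of_mem_erase h)
    have h2 : Γ.de ∉ insert Γ.y (Γ.T.erase Γ.s) := by
      simp [Γ.y_de.symm, Γ.de_T]
    have h3 : Γ.al ∉ insert Γ.de (insert Γ.y (Γ.T.erase Γ.s)) := by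
      simp [Γ.al_de, Γ.y_al.symm, Γ.al_T]
    rw [card_insert_of_notMem h3, card_insert_of_notMem h2, card_insert_of_notMem h1,
      card_erase_of_mem Γ.s_T]
    have := Γ.card
    have h4 : 0 < Γ.T.card := card_pos.2 ⟨_, Γ.s_T⟩
    omega⟩

theorem Cfg.s_ne {x : Fin (2 * k)} (h : x ∉ Γ.T) : Γ.s ≠ x := fun h' => h (h' ▸ Γ.s_T)

theorem Cfg.s2_ne {x : Fin (2 * k)} (h : x ∉ Γ.T) : Γ.s2 ≠ x := fun h' => h (h' ▸ Γ.s2_T)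

theorem Cfg.s_Xs : Γ.s ∉ Γ.Xs.1 := by
  simp [Cfg.Xs, Γ.s_ne Γ.al_T, Γ.s_ne Γ.de_T, Γ.s_ne Γ.y_T]

theorem Cfg.s2_Xs : Γ.s2 ∈ Γ.Xs.1 := by
  simp [Cfg.Xs, Γ.s_s2, Γ.s2_T]

theorem Cfg.w_Xs : Γ.w Γ.Xs = 0 := by
  unfold Cfg.w
  rw [Γ.u_ne Γ.Xs (fun h => Γ.s_Xs (h Γ.s_T)), Γ.u_ne (cpl Γ.Xs) (fun h => by
    have := h Γ.s2_T
    rw [mem_cpl] at this
    exact this Γ.s2_Xs)]
  ring

theorem Cfg.d2 : (Γ.Xs.1 \ Γ.A2.1).card = 1 := by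
  have : Γ.Xs.1 \ Γ.A2.1 = {Γ.y} := by
    ext x
    have hy := Γ.y_T
    have h1 := Γ.y_al
    have h2 := Γ.y_de
    simp only [Cfg.Xs, Cfg.A2, Cfg.pt, mem_sdiff, mem_insert, mem_erase, mem_singleton, not_or]
    constructor
    · rintro ⟨h | h | h | h, h3, h4, h5⟩
      · exact absurd h h3
      · exact absurd h h4
      · exact h
      · exact absurd h.2 h5
    · rintro rfl
      exact ⟨Or.inr (Or.inr (Or.inl rfl)), h1, h2, hy⟩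
  rw [this, card_singleton]

theorem Cfg.d1 : (Γ.Xs.1 \ Γ.A1.1).card = 2 := by
  have : Γ.Xs.1 \ Γ.A1.1 = {Γ.de, Γ.y} := by
    ext x
    simp only [Cfg.Xs, Cfg.A1, Cfg.pt, mem_sdiff, mem_insert, mem_erase, mem_singleton, not_or]
    constructor
    · rintro ⟨h | h | h | h, h3, h4, h5⟩
      · exact absurd h h3
      · exact Or.inl h
      · exact Or.inr h
      · exact absurd h.2 h5
    · rintro (rfl | rfl)
      · exact ⟨Or.inr (Or.inl rfl), Γ.al_de.symm, Γ.ga_de.symm, Γ.de_T⟩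
      · exact ⟨Or.inr (Or.inr (Or.inl rfl)), Γ.y_al, Γ.y_ga, Γ.y_T⟩
  rw [this, card_pair Γ.y_de.symm]

theorem Cfg.d4 : (Γ.Xs.1 \ Γ.A4.1).card = 2 := by
  have : Γ.Xs.1 \ Γ.A4.1 = {Γ.al, Γ.y} := by
    ext x
    simp only [Cfg.Xs, Cfg.A4, Cfg.pt, mem_sdiff, mem_insert, mem_erase, mem_singleton, not_or]
    constructor
    · rintro ⟨h | h | h | h, h3, h4, h5⟩
      · exact Or.inl h
      · exact absurd h h4
      · exact Or.inr h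
      · exact absurd h.2 h5
    · rintro (rfl | rfl)
      · exact ⟨Or.inl rfl, Γ.al_be, Γ.al_de, Γ.al_T⟩
      · exact ⟨Or.inr (Or.inr (Or.inl rfl)), Γ.y_be, Γ.y_de, Γ.y_T⟩
  rw [this, card_pair Γ.y_al.symm]

theorem Cfg.d3 : (Γ.Xs.1 \ Γ.A3.1).card = 3 := by
  have : Γ.Xs.1 \ Γ.A3.1 = {Γ.al, Γ.de, Γ.y} := by
    ext x
    simp only [Cfg.Xs, Cfg.A3, Cfg.pt, mem_sdiff, mem_insert, mem_erase, mem_singleton, not_or]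
    constructor
    · rintro ⟨h | h | h | h, h3, h4, h5⟩
      · exact Or.inl h
      · exact Or.inr (Or.inl h)
      · exact Or.inr (Or.inr h)
      · exact absurd h.2 h5
    · rintro (rfl | rfl | rfl)
      · exact ⟨Or.inl rfl, Γ.al_be, Γ.al_ga, Γ.al_T⟩
      · exact ⟨Or.inr (Or.inl rfl), Γ.be_de.symm, Γ.ga_de.symm, Γ.de_T⟩
      · exact ⟨Or.inr (Or.inr (Or.inl rfl)), Γ.y_be, Γ.y_ga, Γ.y_T⟩
  rw [this, card_insert_of_notMem (by simp [Γ.al_de, Γ.y_al.symm]), card_pair Γ.y_de.symm]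

theorem H2_symm (X Y : V k) : (H k * H k) X Y = (H k * H k) Y X := by
  rw [Matrix.mul_apply, Matrix.mul_apply]
  exact sum_congr rfl fun Z _ => by rw [H_symm X Z, H_symm Z Y]; ring

theorem H2_cpl (X Y : V k) : (H k * H k) X (cpl Y) = (-1) ^ k * (H k * H k) X Y := by
  rw [Matrix.mul_apply, Matrix.mul_apply, mul_sum]
  exact sum_congr rfl fun Z _ => by rw [H_symm Z (cpl Y), H_cpl, H_symm Y Z]; ring

theorem Cfg.B_sq : (Γ.B * Γ.B) Γ.Xs Γ.A1 = (2 * c k 2 - c k 1 + c k 3) / 2 := by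
  have h1 : Γ.B * Γ.B = Γ.W * (H k * H k) * Γ.W := by
    unfold Cfg.B
    calc Γ.W * H k * Γ.W * (Γ.W * H k * Γ.W) = Γ.W * H k * (Γ.W * Γ.W) * H k * Γ.W := by
          simp only [Matrix.mul_assoc]
      _ = _ := by rw [Γ.W_sq, Matrix.mul_one]; simp only [Matrix.mul_assoc]
  rw [h1, Γ.conj_apply _ H2_symm, Γ.w_Xs, Γ.w1]
  have h2 : ((H k * H k) *ᵥ Γ.w) Γ.Xs = 2 * ((H k * H k) Γ.Xs Γ.A1 + (H k * H k) Γ.Xs Γ.A2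
      - (H k * H k) Γ.Xs Γ.A3 - (H k * H k) Γ.Xs Γ.A4) := by
    have h3 : ((H k * H k) *ᵥ Γ.w) Γ.Xs = ∑ Y, Γ.w Y * (H k * H k) Γ.Xs Y := by
      unfold Matrix.mulVec dotProduct
      exact sum_congr rfl fun Y _ => mul_comm _ _
    rw [h3, Γ.sum_w (fun Y => (H k * H k) Γ.Xs Y) (fun Y => H2_cpl _ _)]
  rw [h2, H_sq, H_sq, H_sq, H_sq, Γ.d1, Γ.d2, Γ.d3, Γ.d4]
  ring

end Pool.Agent.Q168.EJ
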