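import Mathlib
import Pool.Agent.Q168.EJ.Sw

set_option autoImplicit false
set_option maxRecDepth 100000

namespace Pool.Agent.Q168.EJ

open Finset Matrix

/-- The configuration for `k = 4`. -/
def cfg4 : Cfg 4 where
  al := (0 : Fin 8)
  be := (1 : Fin 8)
  ga := (2 : Fin 8)
  de := (3 : Fin 8)
  s := (4 : Fin 8)
  s2 := (5 : Fin 8)
  y := (6 : Fin 8)
  T := ({4, 5} : Finset (Fin 8))
  card := by decide
  al_T := by decide
  be_T := by decide
  ga_T := by decide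
  de_T := by decide
  s_T := by decide
  s2_T := by decide
  y_T := by decide
  al_be := by decide
  al_ga := by decide
  al_de := by decide
  be_ga := by decide
  be_de := by decide
  ga_de := by decide
  y_al := by decide
  y_be := by decide
  y_ga := by decide
  y_de := by decide
  s_s2 := by decide

def sz (W : Finset (Fin 8)) (x : Fin 8) : ℤ := if x ∈ W then -1 else 1

def Hz (X Y : Finset (Fin 8)) : ℤ := if (X ∩ Y).card % 2 = 0 then 1 else -1

def uz (X : Finset (Fin 8)) : ℤ :=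
  (if X = {0, 2, 4, 5} then 1 else 0) + (if X = {0, 3, 4, 5} then 1 else 0)
    - (if X = {1, 2, 4, 5} then 1 else 0) - (if X = {1, 3, 4, 5} then 1 else 0)

def wz (X : Finset (Fin 8)) : ℤ := uz X + uz Xᶜ

def gz (X : Finset (Fin 8)) : ℤ := sz X 4 * sz X 5 * ((sz X 0 - sz X 1) * (sz X 2 + sz X 3))

/-- computable adjacency -/
def adjZ (X Y : Finset (Fin 8)) : Bool :=
  decide (X ≠ Y) && decide (Y ≠ Xᶜ) && decide (2 * Hz X Y - (wz X * gz Y + gz X * wz Y) = 2)

def x0 : Finset (Fin 8) := {0, 1, 2, 4}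
def y0 : Finset (Fin 8) := {0, 2, 6, 7}

def chk (z : Finset (Fin 8)) : Bool :=
  !(adjZ x0 z) || !(adjZ y0 z) ||
   decide (((powersetCard 4 (univ : Finset (Fin 8))).filter fun w =>
      (w ≠ z ∧ w ≠ zᶜ) ∧ adjZ x0 w = true ∧ adjZ y0 w = true ∧ adjZ z w = false).card ≠ 0)

theorem chk_all : ∀ z ∈ powersetCard 4 (univ : Finset (Fin 8)), chk z = true := by
  decide +kernel

theorem xy_adj : adjZ x0 y0 = true := by decide +kernel

theorem sgn_eq (W : Finset (Fin 8)) (x : Fin 8) : sgn (k := 4) W x = (sz W x : ℝ) := by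
  unfold sgn sz
  split_ifs <;> simp

theorem H_eqz (X Y : V 4) : H 4 X Y = (Hz X.1 Y.1 : ℝ) := by
  rw [H_eq]
  unfold Hz
  split_ifs with h
  · have h' : Even (X.1 ∩ Y.1).card := Nat.even_iff.2 h
    rw [h'.neg_one_pow]; simp
  · have h' : Odd (X.1 ∩ Y.1).card := by
      rw [← Nat.not_even_iff_odd, Nat.even_iff]; exact h
    rw [h'.neg_one_pow]; simp

theorem u_eqz (X : V 4) : cfg4.u X = (uz X.1 : ℝ) := by
  have h1 : X = cfg4.A1 ↔ X.1 = ({0, 2, 4, 5} : Finset (Fin 8)) := Subtype.ext_iff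
  have h2 : X = cfg4.A2 ↔ X.1 = ({0, 3, 4, 5} : Finset (Fin 8)) := Subtype.ext_iff
  have h3 : X = cfg4.A3 ↔ X.1 = ({1, 2, 4, 5} : Finset (Fin 8)) := Subtype.ext_iff
  have h4 : X = cfg4.A4 ↔ X.1 = ({1, 3, 4, 5} : Finset (Fin 8)) := Subtype.ext_iff
  unfold Cfg.u uz
  simp only [Pi.add_apply, Pi.sub_apply, Pi.single_apply, h1, h2, h3, h4]
  push_cast
  rfl

theorem w_eqz (X : V 4) : cfg4.w X = (wz X.1 : ℝ) := by
  unfold Cfg.w wz
  rw [u_eqz, u_eqz]
  push_cast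
  have : (cpl X).1 = (X.1)ᶜ := rfl
  rw [this]
  norm_num

theorem g_eqz (X : V 4) : cfg4.g X = (gz X.1 : ℝ) := by
  have ht : cfg4.t X = (sz X.1 4 : ℝ) * (sz X.1 5 : ℝ) := by
    have : cfg4.t X = ∏ x ∈ ({4, 5} : Finset (Fin 8)), sgn (k := 4) X.1 x := rfl
    rw [this, prod_insert (by decide), prod_singleton, sgn_eq, sgn_eq]
  have hg : cfg4.g X = cfg4.t X * ((sgn (k := 4) X.1 (0 : Fin 8) - sgn (k := 4) X.1 (1 : Fin 8))
      * (sgn (k := 4) X.1 (2 : Fin 8) + sgn (k := 4) X.1 (3 : Fin 8))) := rfl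
  rw [hg, ht, sgn_eq, sgn_eq, sgn_eq, sgn_eq]
  unfold gz
  push_cast
  ring

theorem adj_iff (X Y : V 4) : (Gr cfg4.B).Adj X Y ↔ adjZ X.1 Y.1 = true := by
  have h1 : (Gr cfg4.B).Adj X Y ↔ X ≠ Y ∧ Y ≠ cpl X ∧ cfg4.B X Y = 1 := by
    constructor
    · rintro ⟨h1, h2, h3, h4, h5⟩; exact ⟨h1, h2, h4⟩
    · rintro ⟨h1, h2, h3⟩
      exact ⟨h1, h2, fun h => h2 ((eq_cpl_comm _ _).2 h), h3, by rw [cfg4.B_symm]; exact h3⟩
  have h2 : cfg4.B X Y = 1 ↔ 2 * Hz X.1 Y.1 - (wz X.1 * gz Y.1 + gz X.1 * wz Y.1) = 2 := by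
    rw [cfg4.B_apply, H_eqz, w_eqz, g_eqz, w_eqz, g_eqz]
    rw [← @Int.cast_inj ℝ]
    push_cast
    constructor <;> intro h <;> linarith
  have h3 : X ≠ Y ↔ X.1 ≠ Y.1 := by
    rw [ne_eq, ne_eq, Subtype.ext_iff]
  have h4 : Y ≠ cpl X ↔ Y.1 ≠ (X.1)ᶜ := by
    rw [ne_eq, ne_eq, Subtype.ext_iff]; rfl
  rw [h1, h2, h3, h4]
  unfold adjZ
  simp only [Bool.and_eq_true, decide_eq_true_eq, and_assoc]

/-- In `Gr (H 4)`, two adjacent vertices have a common neighbour which is adjacent to all the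
other common neighbours with at most one exception. -/
theorem H_line (x y : V 4) (h : (Gr (H 4)).Adj x y) : ∃ z, (Gr (H 4)).Adj x z ∧
    (Gr (H 4)).Adj y z ∧ ∀ w, (Gr (H 4)).Adj x w → (Gr (H 4)).Adj y w → w ≠ z → w ≠ cpl z →
      (Gr (H 4)).Adj z w := by
  obtain ⟨h1, h2, h3, h4, h5⟩ := h
  have hdisj : Disjoint (x.1 \ y.1) (y.1 \ x.1) := disjoint_sdiff_sdiff
  have hcomm : (x.1 \ y.1).card = (y.1 \ x.1).card := card_sdiff_comm (x.2.trans y.2.symm)
  have hi : (x.1 \ y.1).card + (x.1 ∩ y.1).card = x.1.card := card_sdiff_add_card_inter _ _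
  have hcard : (x.1 ∩ y.1).card = 2 := by
    have hle : (x.1 ∩ y.1).card ≤ 4 := (card_le_card inter_subset_left).trans x.2.le
    have heven : Even (x.1 ∩ y.1).card := by
      rw [H_eq] at h4
      by_contra hcon
      rw [Nat.not_even_iff_odd] at hcon
      rw [hcon.neg_one_pow] at h4
      norm_num at h4
    have hne4 : (x.1 ∩ y.1).card ≠ 4 := by
      intro h0
      apply h1
      apply Subtype.ext
      have e1 : x.1 ∩ y.1 = x.1 := eq_of_subset_of_card_le inter_subset_left (by rw [h0, x.2])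
      have e2 : x.1 ∩ y.1 = y.1 := eq_of_subset_of_card_le inter_subset_right (by rw [h0, y.2])
      rw [← e1, e2]
    have hne0 : (x.1 ∩ y.1).card ≠ 0 := by
      intro h0
      apply h2
      apply Subtype.ext
      rw [card_eq_zero] at h0
      have hsub : y.1 ⊆ (cpl x).1 := by
        intro a ha
        rw [mem_cpl]
        intro ha'
        have : a ∈ x.1 ∩ y.1 := mem_inter.2 ⟨ha', ha⟩
        rw [h0] at this
        simp at this
      exact eq_of_subset_of_card_le hsub (by rw [(cpl x).2, y.2])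
    obtain ⟨r, hr⟩ := heven
    omega
  have hz : (symmDiff x.1 y.1).card = 4 := by
    have h5 : symmDiff x.1 y.1 = (x.1 \ y.1) ∪ (y.1 \ x.1) := rfl
    rw [h5, card_union_of_disjoint hdisj]
    have := x.2
    omega
  have key : ∀ w : V 4, H 4 ⟨symmDiff x.1 y.1, hz⟩ w = H 4 x w * H 4 y w := by
    intro w
    unfold H
    rw [← prod_mul_distrib]
    exact prod_congr rfl fun a _ => sgn_symmDiff _ _ _
  -- elements
  obtain ⟨a, ha⟩ : (x.1 ∩ y.1).Nonempty := card_pos.1 (by omega)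
  obtain ⟨b, hb⟩ : (x.1 \ y.1).Nonempty := card_pos.1 (by have := x.2; omega)
  obtain ⟨c', hc⟩ : (y.1 \ x.1).Nonempty := card_pos.1 (by have := x.2; omega)
  rw [mem_inter] at ha
  rw [mem_sdiff] at hb hc
  have hza : a ∉ symmDiff x.1 y.1 := by simp [mem_symmDiff, ha.1, ha.2]
  have hzb : b ∈ symmDiff x.1 y.1 := by simp [mem_symmDiff, hb.1, hb.2]
  have hzc : c' ∈ symmDiff x.1 y.1 := by simp [mem_symmDiff, hc.1, hc.2]
  have mk : ∀ p q : V 4, p ≠ q → q ≠ cpl p → H 4 p q = 1 → (Gr (H 4)).Adj p q := fun p q e1 e2 e3 =>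
    ⟨e1, e2, fun h => e2 ((eq_cpl_comm _ _).2 h), e3, by rw [H_symm]; exact e3⟩
  refine ⟨⟨symmDiff x.1 y.1, hz⟩, mk _ _ ?_ ?_ ?_, mk _ _ ?_ ?_ ?_, ?_⟩
  · intro h
    have := congrArg (fun v : V 4 => a ∈ v.1) h
    simp only [ha.1, hza] at this
    exact absurd trivial (by rw [this]; exact id)
  · intro h
    have := congrArg (fun v : V 4 => b ∈ v.1) h
    simp only [hzb, mem_cpl, hb.1, not_true] at this
    exact absurd trivial (by rw [this]; exact id)
  · rw [H_symm, key, H_diag, h5]; norm_num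
  · intro h
    have := congrArg (fun v : V 4 => a ∈ v.1) h
    simp only [ha.2, hza] at this
    exact absurd trivial (by rw [this]; exact id)
  · intro h
    have := congrArg (fun v : V 4 => c' ∈ v.1) h
    simp only [hzc, mem_cpl, hc.1, not_true] at this
    exact absurd trivial (by rw [this]; exact id)
  · rw [H_symm, key, H_diag, h4]; norm_num
  · intro w hw1 hw2 hw3 hw4
    refine mk _ _ (Ne.symm hw3) hw4 ?_
    rw [key, hw1.2.2.2.1, hw2.2.2.2.1, mul_one]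

theorem not_iso4 : IsEmpty (Gr (H 4) ≃g Gr cfg4.B) := by
  refine ⟨fun φ => ?_⟩
  set x1 : V 4 := ⟨x0, by decide⟩ with hx1
  set y1 : V 4 := ⟨y0, by decide⟩ with hy1
  have hxy : (Gr cfg4.B).Adj x1 y1 := (adj_iff _ _).2 xy_adj
  obtain ⟨z, hz1, hz2, hz3⟩ := H_line (φ.symm x1) (φ.symm y1) (φ.symm.map_adj_iff.2 hxy)
  -- the image of `z`
  have hz1' : (Gr cfg4.B).Adj x1 (φ z) := by
    have := φ.map_adj_iff.2 hz1
    rwa [RelIso.apply_symm_apply] at this
  have hz2' : (Gr cfg4.B).Adj y1 (φ z) := by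
    have := φ.map_adj_iff.2 hz2
    rwa [RelIso.apply_symm_apply] at this
  -- complements are the only twins
  have hdeg : ∀ w : V 4, (Gr cfg4.B).Adj x1 w → (Gr cfg4.B).Adj y1 w → w ≠ φ z → w ≠ cpl (φ z) →
      (Gr cfg4.B).Adj (φ z) w := by
    intro w hw1 hw2 hw3 hw4
    have hex : ∀ v : V 4, (Gr cfg4.B).Adj x1 v → (Gr cfg4.B).Adj y1 v → v ≠ φ z →
        ¬ (Gr cfg4.B).Adj (φ z) v → φ.symm v = cpl z := by
      intro v hv1 hv2 hv3 hv4
      by_contra hcon
      apply hv4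
      have h1 := hz3 (φ.symm v) (φ.symm.map_adj_iff.2 hv1) (φ.symm.map_adj_iff.2 hv2)
        (fun h => hv3 (by rw [← h, RelIso.apply_symm_apply])) hcon
      have := φ.map_adj_iff.2 h1
      rwa [RelIso.apply_symm_apply] at this
    by_contra hcon
    have e1 := hex w hw1 hw2 hw3 hcon
    -- the complement of `φ z` is an exception, too
    have cadj : ∀ p q : V 4, (Gr cfg4.B).Adj p q → (Gr cfg4.B).Adj p (cpl q) := by
      intro p q h
      obtain ⟨h1, h2, h3, h4, h5⟩ := h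
      refine ⟨h3, fun h => h1 ?_, fun h => h1 (by rw [h, cpl_cpl]), ?_, ?_⟩
      · rw [← cpl_cpl p, ← h, cpl_cpl]
      · rw [cfg4.B_symm, cfg4.B_cpl, h5]; norm_num
      · rw [cfg4.B_cpl, h5]; norm_num
    have e2 := hex (cpl (φ z)) (cadj _ _ hz1') (cadj _ _ hz2') (cpl_ne (by norm_num) _)
      (fun h => h.2.1 rfl)
    exact hw4 (φ.symm.injective (e1.trans e2.symm))
  have hc := chk_all (φ z).1 (by
    rw [mem_powersetCard]; exact ⟨subset_univ _, (φ z).2⟩)
  unfold chk at hc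
  rw [show adjZ x0 (φ z).1 = true from (adj_iff _ _).1 hz1',
    show adjZ y0 (φ z).1 = true from (adj_iff _ _).1 hz2'] at hc
  simp only [Bool.not_true, Bool.false_or, decide_eq_true_eq, ne_eq, card_eq_zero] at hc
  obtain ⟨w, hw⟩ := nonempty_iff_ne_empty.2 hc
  rw [mem_filter, mem_powersetCard] at hw
  obtain ⟨⟨-, hwc⟩, ⟨hw1, hw2⟩, hw3, hw4, hw5⟩ := hw
  have := hdeg ⟨w, hwc⟩ ((adj_iff _ _).2 hw3) ((adj_iff _ _).2 hw4)
    (fun h => hw1 (congrArg Subtype.val h)) (fun h => hw2 (congrArg Subtype.val h))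
  rw [adj_iff] at this
  rw [hw5] at this
  exact absurd this (by decide)

end Pool.Agent.Q168.EJ
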